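import Pool.Agent.W730.PN.Plane

/-!
# The affine charts of the complex projective plane
-/

set_option autoImplicit false

open Set Topology Filter Metric
open scoped Manifold ContDiff ComplexConjugate

noncomputable section

namespace Pool.Agent.W730.PN

/-- homogeneous coordinates of the point with affine coordinates `w` in the chart `j`. -/
def lift (j : Fin 3) (w : Fin 2 → ℂ) : Fin 3 → ℂ := j.insertNth (α := fun _ => ℂ) 1 w

@[simp] theorem lift_self (j : Fin 3) (w : Fin 2 → ℂ) : lift j w j = 1 := by simp [lift]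

@[simp] theorem lift_succAbove (j : Fin 3) (w : Fin 2 → ℂ) (i : Fin 2) :
    lift j w (j.succAbove i) = w i := by simp [lift]

theorem lift_ne (j : Fin 3) (w : Fin 2 → ℂ) : lift j w ≠ 0 := by
  intro h
  have := congrFun h j
  simp at this

/-- The point with affine coordinates `w` in the chart `j`. -/
def aff (j : Fin 3) (w : Fin 2 → ℂ) : Plane := point ⟨lift j w, lift_ne j w⟩

theorem ent_aff (j : Fin 3) (w : Fin 2 → ℂ) (i k : Fin 3) :
    ent (aff j w) i k = lift j w i * conj (lift j w k) / (nrm (lift j w) : ℂ) := rfl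

theorem nrm_lift_ne (j : Fin 3) (w : Fin 2 → ℂ) : ((nrm (lift j w) : ℝ) : ℂ) ≠ 0 := by
  exact_mod_cast nrm_ne (lift_ne j w)

theorem ent_aff_self (j : Fin 3) (w : Fin 2 → ℂ) :
    ent (aff j w) j j = 1 / (nrm (lift j w) : ℂ) := by
  rw [ent_aff]; simp

theorem ent_aff_self_ne (j : Fin 3) (w : Fin 2 → ℂ) : ent (aff j w) j j ≠ 0 := by
  rw [ent_aff_self]
  exact one_div_ne_zero (nrm_lift_ne j w)

theorem continuous_lift (j : Fin 3) : Continuous (lift j) := by
  refine continuous_pi fun i => ?_
  rcases Fin.eq_self_or_eq_succAbove j i with rfl | ⟨m, rfl⟩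
  · simp only [lift_self]; exact continuous_const
  · simp only [lift_succAbove]; exact continuous_apply m

theorem continuous_aff (j : Fin 3) : Continuous (aff j) :=
  continuous_point.comp ((continuous_lift j).subtype_mk _)

/-- The affine coordinates. -/
def coord (j : Fin 3) (P : Plane) : Fin 2 → ℂ := fun i => ent P (j.succAbove i) j / ent P j j

theorem coord_aff (k j : Fin 3) (w : Fin 2 → ℂ) (h : lift j w k ≠ 0) :
    coord k (aff j w) = fun i => lift j w (k.succAbove i) / lift j w k := by
  funext i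
  rw [coord, ent_aff, ent_aff]
  have h1 := nrm_lift_ne j w
  have h2 : conj (lift j w k) ≠ 0 := by simpa using h
  field_simp

theorem coord_aff_self (j : Fin 3) (w : Fin 2 → ℂ) : coord j (aff j w) = w := by
  rw [coord_aff j j w (by simp)]
  simp

theorem lift_coord {j : Fin 3} {P : Plane} (h : ent P j j ≠ 0) (i : Fin 3) :
    lift j (coord j P) i = ent P i j / ent P j j := by
  rcases Fin.eq_self_or_eq_succAbove j i with rfl | ⟨m, rfl⟩
  · rw [lift_self, div_self h]
  · rw [lift_succAbove, coord]

theorem aff_coord {j : Fin 3} {P : Plane} (h : ent P j j ≠ 0) : aff j (coord j P) = P :=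
  eq_point _ h fun i => lift_coord h i

theorem ent_aff_ne_iff (k j : Fin 3) (w : Fin 2 → ℂ) :
    ent (aff j w) k k ≠ 0 ↔ lift j w k ≠ 0 := by
  rw [ent_aff]
  have h1 := nrm_lift_ne j w
  constructor
  · intro h h0
    apply h
    simp [h0]
  · intro h
    have h2 : conj (lift j w k) ≠ 0 := by simpa using h
    exact div_ne_zero (mul_ne_zero h h2) h1

/-- The affine chart number `j`. -/
def chart (j : Fin 3) : OpenPartialHomeomorph Plane (Fin 2 → ℂ) where
  toFun := coord j
  invFun := aff j
  source := {P | ent P j j ≠ 0}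
  target := univ
  map_source' := fun _ _ => mem_univ _
  map_target' := fun w _ => ent_aff_self_ne j w
  left_inv' := fun _ h => aff_coord h
  right_inv' := fun w _ => coord_aff_self j w
  open_source := isOpen_ne_fun (continuous_ent j j) continuous_const
  open_target := isOpen_univ
  continuousOn_toFun := by
    refine continuousOn_pi.2 fun i => ?_
    exact ContinuousOn.div (continuous_ent _ _).continuousOn (continuous_ent _ _).continuousOn
      fun P hP => hP
  continuousOn_invFun := (continuous_aff j).continuousOn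

/-- An index of a nonzero diagonal entry. -/
def idx (P : Plane) : Fin 3 := Classical.choose (exists_diag_ne P)

theorem idx_spec (P : Plane) : ent P (idx P) (idx P) ≠ 0 := Classical.choose_spec (exists_diag_ne P)

instance : ChartedSpace (Fin 2 → ℂ) Plane where
  atlas := {c | ∃ j, c = chart j}
  chartAt P := chart (idx P)
  mem_chart_source P := idx_spec P
  chart_mem_atlas P := ⟨idx P, rfl⟩

theorem contDiff_lift (j : Fin 3) : ContDiff ℂ ω (lift j) := by
  refine contDiff_pi.2 fun i => ?_
  rcases Fin.eq_self_or_eq_succAbove j i with rfl | ⟨m, rfl⟩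
  · simp only [lift_self]; exact contDiff_const
  · simp only [lift_succAbove]; exact contDiff_apply ℂ ℂ m

theorem contDiffOn_trans (j k : Fin 3) :
    ContDiffOn ℂ ω (fun w => coord k (aff j w)) {w | lift j w k ≠ 0} := by
  have h : ContDiffOn ℂ ω (fun w => fun i => lift j w (k.succAbove i) / lift j w k)
      {w | lift j w k ≠ 0} := by
    refine contDiffOn_pi.2 fun i => ?_
    refine ContDiffOn.div ?_ ?_ fun w hw => hw
    · exact ((contDiff_apply ℂ ℂ _).comp (contDiff_lift j)).contDiffOn
    · exact ((contDiff_apply ℂ ℂ _).comp (contDiff_lift j)).contDiffOn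
  exact h.congr fun w hw => coord_aff k j w hw

instance : IsManifold 𝓘(ℂ, Fin 2 → ℂ) ω Plane := by
  refine isManifold_of_contDiffOn 𝓘(ℂ, Fin 2 → ℂ) ω Plane fun e e' he he' => ?_
  obtain ⟨j, rfl⟩ := he
  obtain ⟨k, rfl⟩ := he'
  refine (contDiffOn_trans j k).congr_mono (fun w _ => rfl) ?_
  intro w hw
  simp only [mfld_simps] at hw
  exact (ent_aff_ne_iff k j w).1 hw.2

theorem contMDiff_aff (j : Fin 3) : ContMDiff 𝓘(ℂ, Fin 2 → ℂ) 𝓘(ℂ, Fin 2 → ℂ) ω (aff j) := by
  have h := contMDiffOn_symm_of_mem_maximalAtlas (I := 𝓘(ℂ, Fin 2 → ℂ)) (n := ω)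
    (IsManifold.subset_maximalAtlas (I := 𝓘(ℂ, Fin 2 → ℂ)) (n := ω) (M := Plane)
      (show chart j ∈ atlas (Fin 2 → ℂ) Plane from ⟨j, rfl⟩))
  exact contMDiffOn_univ.1 h

end Pool.Agent.W730.PN
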