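import Mathlib

/-!
# Kähler manifolds via local potentials
-/

set_option autoImplicit false

open Set Topology Filter Metric
open scoped Manifold ContDiff

noncomputable section

namespace Pool.Agent.W730.PN

/-- The Laplacian `u_xx + u_yy` at `ζ = 0` of a real function of one complex variable
`ζ = x + i y`. -/
def laplaceAtZero (u : ℂ → ℝ) : ℝ :=
  iteratedDeriv 2 (fun s : ℝ => u (s : ℂ)) 0 +
    iteratedDeriv 2 (fun s : ℝ => u ((s : ℂ) * Complex.I)) 0

section Defs

variable {E : Type} [NormedAddCommGroup E] [NormedSpace ℂ E]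
variable {X : Type} [TopologicalSpace X] [ChartedSpace E X]

/-- The Levi form of the real function `ρ` at the point `x` of the complex manifold `X`, evaluated
on the tangent vector which is `v` in the coordinates `φ` of the chart at `x`: the Laplacian at
`ζ = 0` of `ρ (φ⁻¹ (φ x + ζ v))`. -/
def leviForm (ρ : X → ℝ) (x : X) (v : E) : ℝ :=
  laplaceAtZero fun ζ : ℂ => ρ ((chartAt E x).symm (chartAt E x x + ζ • v))

variable (E X)

/-- The complex manifold `X` is Kähler: there are open sets `V j` covering `X` and smooth real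
functions `ρ j` on `V j` with positive definite Levi forms which agree on the intersections
`V j ∩ V k`, so that the forms `dd^c (ρ j)` glue to a Kähler form on `X`. -/
def IsKahler : Prop :=
  ∃ (J : Type) (V : J → Set X) (ρ : J → X → ℝ),
    (∀ j, IsOpen (V j)) ∧ (∀ x, ∃ j, x ∈ V j) ∧
    (∀ j, ContMDiffOn 𝓘(ℝ, E) 𝓘(ℝ, ℝ) ∞ (ρ j) (V j)) ∧
    (∀ j, ∀ x ∈ V j, ∀ v : E, v ≠ 0 → 0 < leviForm (ρ j) x v) ∧
    (∀ j k, ∀ x ∈ V j ∩ V k, ∀ v : E, leviForm (ρ j) x v = leviForm (ρ k) x v)

end Defs

end Pool.Agent.W730.PN
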