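import Pool.Agent.W730.PN.Charts
import Pool.Agent.W730.PN.Defs

/-!
# The complex projective plane is Kähler
-/

set_option autoImplicit false

open Set Topology Filter Metric
open scoped Manifold ContDiff ComplexConjugate

noncomputable section

namespace Pool.Agent.W730.PN

/-! ### Second derivatives of `log` of a quadratic -/

theorem iteratedDeriv_log_quad {A B C : ℝ} (hA : 0 < A) {f : ℝ → ℝ}
    (hf : f =ᶠ[𝓝 0] fun s => Real.log (A + 2 * B * s + C * s ^ 2)) :
    iteratedDeriv 2 f 0 = (2 * C * A - 4 * B ^ 2) / A ^ 2 := by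
  have hpos : ∀ᶠ s : ℝ in 𝓝 0, 0 < A + 2 * B * s + C * s ^ 2 := by
    have hc : ContinuousAt (fun s : ℝ => A + 2 * B * s + C * s ^ 2) 0 := by fun_prop
    have : (fun s : ℝ => A + 2 * B * s + C * s ^ 2) 0 = A := by simp
    exact hc.eventually (lt_mem_nhds (by simpa using hA))
  have h1 : ∀ᶠ s : ℝ in 𝓝 0, deriv f s = (2 * B + 2 * C * s) / (A + 2 * B * s + C * s ^ 2) := by
    filter_upwards [hpos, hf.eventuallyEq_nhds] with s hs hfs
    rw [hfs.deriv_eq]
    have h2 : HasDerivAt (fun s : ℝ => A + 2 * B * s + C * s ^ 2) (2 * B + 2 * C * s) s := by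
      have := (((hasDerivAt_id s).const_mul (2 * B)).const_add A).add
        ((hasDerivAt_pow 2 s).const_mul C)
      refine this.congr_deriv ?_
      simp; ring
    exact (h2.log hs.ne').deriv
  have e : iteratedDeriv 2 f 0 = deriv (deriv f) 0 := by
    rw [iteratedDeriv_succ, iteratedDeriv_one]
  rw [e, Filter.EventuallyEq.deriv_eq (f := fun s => (2 * B + 2 * C * s) /
    (A + 2 * B * s + C * s ^ 2)) h1]
  have h3 : HasDerivAt (fun s : ℝ => 2 * B + 2 * C * s) (2 * C) 0 := by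
    have := ((hasDerivAt_id (0 : ℝ)).const_mul (2 * C)).const_add (2 * B)
    refine this.congr_deriv ?_
    simp
  have h4 : HasDerivAt (fun s : ℝ => A + 2 * B * s + C * s ^ 2) (2 * B) 0 := by
    have := (((hasDerivAt_id (0 : ℝ)).const_mul (2 * B)).const_add A).add
      ((hasDerivAt_pow 2 (0 : ℝ)).const_mul C)
    refine this.congr_deriv ?_
    simp
  have h5 := h3.fun_div h4 (by simpa using hA.ne')
  rw [h5.deriv]
  congr 1
  · simp; ring
  · simp

theorem nrm_add (z₀ z₁ : Fin 3 → ℂ) (ζ : ℂ) :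
    nrm (z₀ + ζ • z₁) = nrm z₀ + 2 * (ζ * ∑ i, z₁ i * conj (z₀ i)).re +
      nrm z₁ * Complex.normSq ζ := by
  have h : ∀ i, Complex.normSq ((z₀ + ζ • z₁) i) = Complex.normSq (z₀ i) +
      2 * (ζ * (z₁ i * conj (z₀ i))).re + Complex.normSq (z₁ i) * Complex.normSq ζ := by
    intro i
    simp only [Pi.add_apply, Pi.smul_apply, smul_eq_mul, Complex.normSq_apply, Complex.add_re,
      Complex.add_im, Complex.mul_re, Complex.mul_im, Complex.conj_re, Complex.conj_im]
    ring
  simp only [nrm]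
  rw [Finset.sum_congr rfl fun i _ => h i, Finset.sum_add_distrib, Finset.sum_add_distrib,
    ← Finset.sum_mul, Finset.mul_sum (a := ζ), Complex.re_sum, Finset.mul_sum]

/-- The Laplacian of `log |z₀ + ζ z₁|²`. -/
theorem laplace_log (z₀ z₁ : Fin 3 → ℂ) (u : ℂ → ℝ) (h0 : 0 < nrm z₀)
    (hu : u =ᶠ[𝓝 0] fun ζ => Real.log (nrm (z₀ + ζ • z₁))) :
    laplaceAtZero u = 4 * (nrm z₀ * nrm z₁ - Complex.normSq (∑ i, z₁ i * conj (z₀ i))) /
      nrm z₀ ^ 2 := by
  set b : ℂ := ∑ i, z₁ i * conj (z₀ i) with hb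
  have t1 : Tendsto (fun s : ℝ => (s : ℂ)) (𝓝 0) (𝓝 0) := by
    have : ContinuousAt (fun s : ℝ => (s : ℂ)) 0 := Complex.continuous_ofReal.continuousAt
    simpa [ContinuousAt] using this
  have t2 : Tendsto (fun s : ℝ => (s : ℂ) * Complex.I) (𝓝 0) (𝓝 0) := by
    simpa using t1.mul_const Complex.I
  have e1 := iteratedDeriv_log_quad (A := nrm z₀) (B := b.re) (C := nrm z₁) h0
    (f := fun s : ℝ => u (s : ℂ)) (by
      filter_upwards [t1.eventually hu] with s hs
      rw [hs, nrm_add]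
      congr 1
      simp only [Complex.re_ofReal_mul, Complex.normSq_ofReal]
      ring)
  have e2 := iteratedDeriv_log_quad (A := nrm z₀) (B := -b.im) (C := nrm z₁) h0
    (f := fun s : ℝ => u ((s : ℂ) * Complex.I)) (by
      filter_upwards [t2.eventually hu] with s hs
      rw [hs, nrm_add]
      congr 1
      simp only [mul_assoc, Complex.re_ofReal_mul, Complex.normSq_mul, Complex.normSq_ofReal,
        Complex.normSq_I, Complex.I_mul_re]
      ring)
  rw [laplaceAtZero, e1, e2, Complex.normSq_apply]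
  ring

/-- The Laplacian of `log |a + ζ b|²` vanishes. -/
theorem laplace_log_normSq (a b : ℂ) (u : ℂ → ℝ) (h0 : a ≠ 0)
    (hu : u =ᶠ[𝓝 0] fun ζ => Real.log (Complex.normSq (a + ζ * b))) :
    laplaceAtZero u = 0 := by
  have e : ∀ c : ℂ, nrm (Pi.single 0 c) = Complex.normSq c := by
    intro c
    rw [nrm, Finset.sum_eq_single (0 : Fin 3)]
    · simp
    · intro i _ hi
      simp [Pi.single_eq_of_ne hi]
    · simp
  have h := laplace_log (Pi.single 0 a) (Pi.single 0 b) u (by rw [e]; exact Complex.normSq_pos.2 h0)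
    (by
      filter_upwards [hu] with ζ hζ
      rw [hζ]
      congr 1
      rw [← e]
      congr 1
      funext i
      rcases eq_or_ne i 0 with rfl | hi
      · simp
      · simp [Pi.single_eq_of_ne hi])
  rw [h, e, e]
  have e3 : ∑ i, (Pi.single 0 b : Fin 3 → ℂ) i * conj ((Pi.single 0 a : Fin 3 → ℂ) i) =
      b * conj a := by
    rw [Finset.sum_eq_single (0 : Fin 3)]
    · simp
    · intro i _ hi
      simp [Pi.single_eq_of_ne hi]
    · simp
  rw [e3, Complex.normSq_mul, Complex.normSq_conj]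
  ring

/-! ### The potentials -/

/-- The potential `log (|z|² / |z_j|²)`. -/
def pot (j : Fin 3) (P : Plane) : ℝ := - Real.log (ent P j j).re

theorem ent_aff_diag_re (k j : Fin 3) (w : Fin 2 → ℂ) :
    (ent (aff k w) j j).re = Complex.normSq (lift k w j) / nrm (lift k w) := by
  rw [ent_aff, Complex.mul_conj, ← Complex.ofReal_div, Complex.ofReal_re]

theorem pot_aff (k j : Fin 3) (w : Fin 2 → ℂ) (h : lift k w j ≠ 0) :
    pot j (aff k w) = Real.log (nrm (lift k w)) - Real.log (Complex.normSq (lift k w j)) := by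
  rw [pot, ent_aff_diag_re, Real.log_div (Complex.normSq_pos.2 h).ne' (nrm_ne (lift_ne k w))]
  ring

theorem lift_add_smul (k : Fin 3) (w v : Fin 2 → ℂ) (ζ : ℂ) :
    lift k (w + ζ • v) = lift k w + ζ • k.insertNth (α := fun _ => ℂ) 0 v := by
  funext i
  rcases Fin.eq_self_or_eq_succAbove k i with rfl | ⟨m, rfl⟩
  · simp
  · simp

theorem chartAt_eq (P : Plane) : chartAt (Fin 2 → ℂ) P = chart (idx P) := rfl

theorem continuous_lift_line (k : Fin 3) (w v : Fin 2 → ℂ) (j : Fin 3) :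
    Continuous fun ζ : ℂ => lift k (w + ζ • v) j := by
  refine (continuous_apply j).comp ((continuous_lift k).comp ?_)
  fun_prop

theorem contDiffAt_log_nrm (z₀ z₁ : Fin 3 → ℂ) (h0 : 0 < nrm z₀) (c : ℂ) :
    ContDiffAt ℝ 2 (fun s : ℝ => Real.log (nrm (z₀ + ((s : ℂ) * c) • z₁))) 0 := by
  have e : (fun s : ℝ => nrm (z₀ + ((s : ℂ) * c) • z₁)) = fun s : ℝ => nrm z₀ +
      2 * (s * (c * ∑ i, z₁ i * conj (z₀ i)).re) + nrm z₁ * (s ^ 2 * Complex.normSq c) := by
    funext s
    rw [nrm_add, mul_assoc, Complex.re_ofReal_mul, Complex.normSq_mul, Complex.normSq_ofReal]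
    ring
  have h : ContDiffAt ℝ 2 (fun s : ℝ => nrm (z₀ + ((s : ℂ) * c) • z₁)) 0 := by
    rw [e]; fun_prop
  exact h.log (by simpa using h0.ne')

theorem leviForm_pot (j : Fin 3) (P : Plane) (hP : ent P j j ≠ 0) (v : Fin 2 → ℂ) :
    leviForm (E := Fin 2 → ℂ) (pot j) P v =
      4 * (nrm (lift (idx P) (coord (idx P) P)) *
        nrm ((idx P).insertNth (α := fun _ => ℂ) 0 v) -
        Complex.normSq (∑ i, (idx P).insertNth (α := fun _ => ℂ) 0 v i *
          conj (lift (idx P) (coord (idx P) P) i))) /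
      nrm (lift (idx P) (coord (idx P) P)) ^ 2 := by
  set k := idx P with hk
  set w := coord k P with hw
  set z₀ := lift k w with hz₀
  set z₁ := k.insertNth (α := fun _ => ℂ) 0 v with hz₁
  have hPw : aff k w = P := aff_coord (idx_spec P)
  have hj : z₀ j ≠ 0 := (ent_aff_ne_iff j k w).1 (by rw [hPw]; exact hP)
  have h0 : 0 < nrm z₀ := nrm_pos hj
  have hev : ∀ᶠ ζ : ℂ in 𝓝 0, lift k (w + ζ • v) j ≠ 0 := by
    refine (continuous_lift_line k w v j).continuousAt.eventually_ne ?_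
    simpa using hj
  have hu : (fun ζ : ℂ => pot j ((chartAt (Fin 2 → ℂ) P).symm (chartAt (Fin 2 → ℂ) P P + ζ • v)))
      =ᶠ[𝓝 0] fun ζ => Real.log (nrm (z₀ + ζ • z₁)) -
        Real.log (nrm ((Pi.single 0 (z₀ j) : Fin 3 → ℂ) + ζ • Pi.single 0 (z₁ j))) := by
    filter_upwards [hev] with ζ hζ
    have h1 : pot j ((chartAt (Fin 2 → ℂ) P).symm (chartAt (Fin 2 → ℂ) P P + ζ • v)) =
        pot j (aff k (w + ζ • v)) := rfl
    rw [h1, pot_aff k j _ hζ, lift_add_smul]
    congr 2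
    rw [nrm, Finset.sum_eq_single (0 : Fin 3)]
    · simp [hz₀, hz₁]
    · intro i _ hi
      simp [Pi.single_eq_of_ne hi]
    · simp
  have key : ∀ c : ℂ, Tendsto (fun s : ℝ => (s : ℂ) * c) (𝓝 0) (𝓝 0) := by
    intro c
    have t1 : ContinuousAt (fun s : ℝ => (s : ℂ) * c) 0 := by fun_prop
    simpa [ContinuousAt] using t1
  have h0' : 0 < nrm (Pi.single 0 (z₀ j) : Fin 3 → ℂ) := nrm_pos (i := 0) (by simpa using hj)
  have hsplit : ∀ c : ℂ, iteratedDeriv 2 (fun s : ℝ => pot j ((chartAt (Fin 2 → ℂ) P).symm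
      (chartAt (Fin 2 → ℂ) P P + ((s : ℂ) * c) • v))) 0 =
      iteratedDeriv 2 (fun s : ℝ => Real.log (nrm (z₀ + ((s : ℂ) * c) • z₁))) 0 -
      iteratedDeriv 2 (fun s : ℝ => Real.log (nrm ((Pi.single 0 (z₀ j) : Fin 3 → ℂ) +
        ((s : ℂ) * c) • Pi.single 0 (z₁ j)))) 0 := by
    intro c
    rw [← iteratedDeriv_fun_sub (contDiffAt_log_nrm z₀ z₁ h0 c) (contDiffAt_log_nrm _ _ h0' c)]
    exact ((hu.comp_tendsto (key c)).iteratedDeriv 2).eq_of_nhds
  have e1 : ∀ f : ℂ → ℝ, laplaceAtZero f = iteratedDeriv 2 (fun s : ℝ => f ((s : ℂ) * 1)) 0 +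
      iteratedDeriv 2 (fun s : ℝ => f ((s : ℂ) * Complex.I)) 0 := by
    intro f
    simp only [laplaceAtZero, mul_one]
  have e2 := laplace_log_normSq (z₀ j) (z₁ j) (fun ζ => Real.log (nrm ((Pi.single 0 (z₀ j) :
    Fin 3 → ℂ) + ζ • Pi.single 0 (z₁ j)))) hj (Eventually.of_forall fun ζ => by
      change Real.log _ = Real.log _
      congr 1
      rw [nrm, Finset.sum_eq_single (0 : Fin 3)]
      · simp
      · intro i _ hi
        simp [Pi.single_eq_of_ne hi]
      · simp)
  have e3 := laplace_log z₀ z₁ _ h0 (Eventually.of_forall fun _ => rfl)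
  rw [← e3, ← sub_zero (laplaceAtZero _), ← e2, leviForm, e1, e1, e1, hsplit, hsplit]
  ring

theorem contMDiffAt_pot (j : Fin 3) (P : Plane) (hP : ent P j j ≠ 0) :
    ContMDiffAt 𝓘(ℝ, Fin 2 → ℂ) 𝓘(ℝ, ℝ) ∞ (pot j) P := by
  rw [contMDiffAt_iff]
  constructor
  · refine ContinuousAt.neg ?_
    refine ContinuousAt.log ?_ (ent_diag_pos hP).ne'
    exact (Complex.continuous_re.comp (continuous_ent j j)).continuousAt
  · have h1 : (extChartAt 𝓘(ℝ, ℝ) (pot j P) ∘ pot j ∘ (extChartAt 𝓘(ℝ, Fin 2 → ℂ) P).symm) =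
        fun w => pot j (aff (idx P) w) := rfl
    have h2 : extChartAt 𝓘(ℝ, Fin 2 → ℂ) P P = coord (idx P) P := rfl
    rw [h1, h2]
    refine ContDiffAt.contDiffWithinAt ?_
    have hj : lift (idx P) (coord (idx P) P) j ≠ 0 :=
      (ent_aff_ne_iff j _ _).1 (by rw [aff_coord (idx_spec P)]; exact hP)
    have hl : ContDiff ℝ ∞ (lift (idx P)) :=
      ((contDiff_lift (idx P)).restrict_scalars ℝ).of_le (by exact_mod_cast le_top)
    have hev : ∀ᶠ w in 𝓝 (coord (idx P) P), lift (idx P) w j ≠ 0 :=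
      ((continuous_apply j).comp (continuous_lift _)).continuousAt.eventually_ne hj
    have hn : ContDiff ℝ ∞ Complex.normSq := by
      have : (Complex.normSq : ℂ → ℝ) = fun z => z.re * z.re + z.im * z.im := by
        funext z; exact Complex.normSq_apply z
      rw [this]
      exact (Complex.reCLM.contDiff.mul Complex.reCLM.contDiff).add
        (Complex.imCLM.contDiff.mul Complex.imCLM.contDiff)
    have hc : ∀ i, ContDiff ℝ ∞ fun w => Complex.normSq (lift (idx P) w i) := fun i =>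
      hn.comp ((contDiff_apply ℝ ℂ i).comp hl)
    have h3 : ContDiffAt ℝ ∞ (fun w => Real.log (nrm (lift (idx P) w)) -
        Real.log (Complex.normSq (lift (idx P) w j))) (coord (idx P) P) := by
      refine ContDiffAt.sub ?_ ?_
      · refine ContDiffAt.log ?_ (nrm_ne (lift_ne _ _))
        unfold nrm
        exact (ContDiff.sum fun i _ => hc i).contDiffAt
      · exact (hc j).contDiffAt.log (Complex.normSq_pos.2 hj).ne'
    refine h3.congr_of_eventuallyEq ?_
    filter_upwards [hev] with w hw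
    exact pot_aff _ _ _ hw

theorem inner_lt {z₀ z₁ : Fin 3 → ℂ} {k : Fin 3} (h0 : z₀ k = 1) (h1 : z₁ k = 0) (h : z₁ ≠ 0) :
    Complex.normSq (∑ i, z₁ i * conj (z₀ i)) < nrm z₀ * nrm z₁ := by
  have hz1 : 0 < nrm z₁ := lt_of_le_of_ne (nrm_nonneg _) (nrm_ne h).symm
  set y : Fin 3 → ℝ := fun i => if i = k then 0 else ‖z₀ i‖ with hy
  have e1 : ‖∑ i, z₁ i * conj (z₀ i)‖ ≤ ∑ i, ‖z₁ i‖ * y i := by
    refine (norm_sum_le _ _).trans (Finset.sum_le_sum fun i _ => ?_)
    rw [norm_mul, RCLike.norm_conj]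
    by_cases hi : i = k
    · simp [hi, h1]
    · simp [hy, hi]
  have e2 := Finset.sum_mul_sq_le_sq_mul_sq Finset.univ (fun i => ‖z₁ i‖) y
  have e3 : ∑ i, ‖z₁ i‖ ^ 2 = nrm z₁ :=
    Finset.sum_congr rfl fun i _ => (Complex.normSq_eq_norm_sq _).symm
  have e4 : ∑ i, y i ^ 2 + 1 = nrm z₀ := by
    have h2 : ∀ i, Complex.normSq (z₀ i) = y i ^ 2 + if i = k then 1 else 0 := by
      intro i
      by_cases hi : i = k
      · simp [hy, hi, h0]
      · simp [hy, hi, Complex.normSq_eq_norm_sq]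
    rw [nrm, Finset.sum_congr rfl fun i _ => h2 i, Finset.sum_add_distrib]
    simp
  rw [Complex.normSq_eq_norm_sq]
  have e5 : ‖∑ i, z₁ i * conj (z₀ i)‖ ^ 2 ≤ (∑ i, ‖z₁ i‖ * y i) ^ 2 :=
    pow_le_pow_left₀ (norm_nonneg _) e1 2
  rw [e3] at e2
  nlinarith

theorem plane_isKahler : IsKahler (Fin 2 → ℂ) Plane := by
  refine ⟨Fin 3, fun j => {P | ent P j j ≠ 0}, pot, ?_, ?_, ?_, ?_, ?_⟩
  · exact fun j => isOpen_ne_fun (continuous_ent j j) continuous_const
  · exact exists_diag_ne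
  · exact fun j P hP => (contMDiffAt_pot j P hP).contMDiffWithinAt
  · intro j P hP v hv
    rw [leviForm_pot j P hP]
    have h0 : 0 < nrm (lift (idx P) (coord (idx P) P)) := nrm_pos (i := idx P) (by simp)
    have h1 := inner_lt (z₀ := lift (idx P) (coord (idx P) P))
      (z₁ := (idx P).insertNth (α := fun _ => ℂ) 0 v) (k := idx P) (by simp) (by simp) (by
        intro h
        apply hv
        funext i
        have := congrFun h ((idx P).succAbove i)
        simpa using this)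
    refine div_pos ?_ (by positivity)
    linarith
  · intro j k P hP v
    rw [leviForm_pot j P hP.1, leviForm_pot k P hP.2]

end Pool.Agent.W730.PN
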