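import Mathlib

/-!
# The complex projective plane as a compact complex manifold

Points are the orthogonal projections of rank one on `ℂ³`, given by their matrix entries.
-/

set_option autoImplicit false

open Set Topology Filter Metric
open scoped Manifold ContDiff ComplexConjugate

noncomputable section

namespace Pool.Agent.W730.PN

/-- The set of matrices of rank one orthogonal projections. -/
def planeSet : Set (Fin 3 → Fin 3 → ℂ) :=
  {P | (∀ i k, P k i = conj (P i k)) ∧ (∀ i j k l, P i j * P k l = P i l * P k j) ∧
    ∑ i, P i i = 1}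

/-- The complex projective plane. -/
def Plane : Type := planeSet

instance : TopologicalSpace Plane := inferInstanceAs (TopologicalSpace planeSet)
instance : T2Space Plane := inferInstanceAs (T2Space planeSet)
instance : SecondCountableTopology Plane := inferInstanceAs (SecondCountableTopology planeSet)

/-- The matrix entries. -/
def ent (P : Plane) (i k : Fin 3) : ℂ := P.1 i k

theorem ent_ext {P Q : Plane} (h : ∀ i k, ent P i k = ent Q i k) : P = Q :=
  Subtype.ext (funext fun i => funext fun k => h i k)

theorem continuous_ent (i k : Fin 3) : Continuous fun P : Plane => ent P i k :=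
  (continuous_apply k).comp ((continuous_apply i).comp continuous_subtype_val)

theorem continuous_to {Y : Type*} [TopologicalSpace Y] {f : Y → Plane}
    (h : ∀ i k, Continuous fun y => ent (f y) i k) : Continuous f :=
  Continuous.subtype_mk (continuous_pi fun i => continuous_pi fun k => h i k) _

theorem ent_conj (P : Plane) (i k : Fin 3) : ent P k i = conj (ent P i k) := P.2.1 i k

theorem ent_minor (P : Plane) (i j k l : Fin 3) :
    ent P i j * ent P k l = ent P i l * ent P k j := P.2.2.1 i j k l

theorem ent_trace (P : Plane) : ∑ i, ent P i i = 1 := P.2.2.2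

theorem ent_diag_eq (P : Plane) (i : Fin 3) :
    ent P i i = ((∑ j, Complex.normSq (ent P i j) : ℝ) : ℂ) := by
  have h : ent P i i = ∑ j, ent P i j * ent P j i := by
    have h1 : ent P i i = ent P i i * ∑ j, ent P j j := by rw [ent_trace, mul_one]
    rw [h1, Finset.mul_sum]
    exact Finset.sum_congr rfl fun j _ => ent_minor P i i j j
  rw [h]
  push_cast
  refine Finset.sum_congr rfl fun j _ => ?_
  rw [ent_conj P i j, Complex.mul_conj]

theorem ent_diag_re (P : Plane) (i : Fin 3) : ((ent P i i).re : ℂ) = ent P i i := by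
  rw [ent_diag_eq, Complex.ofReal_re]

theorem ent_diag_nonneg (P : Plane) (i : Fin 3) : 0 ≤ (ent P i i).re := by
  rw [ent_diag_eq, Complex.ofReal_re]
  exact Finset.sum_nonneg fun j _ => Complex.normSq_nonneg _

theorem ent_diag_pos {P : Plane} {i : Fin 3} (h : ent P i i ≠ 0) : 0 < (ent P i i).re := by
  refine lt_of_le_of_ne (ent_diag_nonneg P i) fun h0 => h ?_
  rw [← ent_diag_re, ← h0, Complex.ofReal_zero]

theorem ent_trace_re (P : Plane) : ∑ i, (ent P i i).re = 1 := by
  have := congrArg Complex.re (ent_trace P)
  simpa using this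

theorem exists_diag_ne (P : Plane) : ∃ i, ent P i i ≠ 0 := by
  by_contra h
  push Not at h
  have := ent_trace P
  simp [h] at this

theorem norm_ent_le (P : Plane) (i k : Fin 3) : ‖ent P i k‖ ≤ 1 := by
  have h1 : (ent P i i).re ≤ 1 := by
    rw [← ent_trace_re P]
    exact Finset.single_le_sum (f := fun i => (ent P i i).re)
      (fun j _ => ent_diag_nonneg P j) (Finset.mem_univ i)
  have h2 : Complex.normSq (ent P i k) ≤ (ent P i i).re := by
    rw [ent_diag_eq P i, Complex.ofReal_re]
    exact Finset.single_le_sum (f := fun j => Complex.normSq (ent P i j))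
      (fun j _ => Complex.normSq_nonneg _) (Finset.mem_univ k)
  rw [Complex.normSq_eq_norm_sq] at h2
  nlinarith [norm_nonneg (ent P i k)]

instance : CompactSpace Plane := by
  rw [← isCompact_univ_iff]
  have hc : IsClosed planeSet := by
    have h1 : planeSet = (⋂ i, ⋂ k, {P : Fin 3 → Fin 3 → ℂ | P k i = conj (P i k)}) ∩
        ((⋂ i, ⋂ j, ⋂ k, ⋂ l, {P : Fin 3 → Fin 3 → ℂ | P i j * P k l = P i l * P k j}) ∩
          {P : Fin 3 → Fin 3 → ℂ | ∑ i, P i i = 1}) := by
      ext P
      simp [planeSet]
    rw [h1]
    refine IsClosed.inter ?_ (IsClosed.inter ?_ ?_)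
    · refine isClosed_iInter fun i => isClosed_iInter fun k => isClosed_eq (by fun_prop) ?_
      exact Complex.continuous_conj.comp (by fun_prop)
    · exact isClosed_iInter fun i => isClosed_iInter fun j => isClosed_iInter fun k =>
        isClosed_iInter fun l => isClosed_eq (by fun_prop) (by fun_prop)
    · exact isClosed_eq (by fun_prop) (by fun_prop)
  have hb : planeSet ⊆ Set.pi univ fun _ : Fin 3 => Set.pi univ fun _ : Fin 3 =>
      closedBall (0 : ℂ) 1 := by
    intro P hP i _ k _
    rw [mem_closedBall_zero_iff]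
    exact norm_ent_le ⟨P, hP⟩ i k
  have hK : IsCompact planeSet := by
    refine IsCompact.of_isClosed_subset ?_ hc hb
    exact isCompact_univ_pi fun _ => isCompact_univ_pi fun _ => isCompact_closedBall _ _
  exact isCompact_iff_isCompact_univ.1 hK

/-! ### The point with given homogeneous coordinates -/

/-- The sum of squares of the coordinates. -/
def nrm (z : Fin 3 → ℂ) : ℝ := ∑ i, Complex.normSq (z i)

theorem nrm_nonneg (z : Fin 3 → ℂ) : 0 ≤ nrm z := Finset.sum_nonneg fun _ _ => Complex.normSq_nonneg _

theorem nrm_pos {z : Fin 3 → ℂ} {i : Fin 3} (h : z i ≠ 0) : 0 < nrm z :=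
  lt_of_lt_of_le (Complex.normSq_pos.2 h)
    (Finset.single_le_sum (f := fun i => Complex.normSq (z i))
      (fun _ _ => Complex.normSq_nonneg _) (Finset.mem_univ i))

theorem nrm_ne {z : Fin 3 → ℂ} (h : z ≠ 0) : nrm z ≠ 0 := by
  obtain ⟨i, hi⟩ := Function.ne_iff.1 h
  exact (nrm_pos (i := i) (by simpa using hi)).ne'

theorem nrm_cast (z : Fin 3 → ℂ) : ((nrm z : ℝ) : ℂ) = ∑ i, z i * conj (z i) := by
  rw [nrm]
  push_cast
  exact Finset.sum_congr rfl fun i _ => (Complex.mul_conj _).symm

/-- The point `[z 0 : z 1 : z 2]`. -/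
def point (z : {z : Fin 3 → ℂ // z ≠ 0}) : Plane :=
  ⟨fun i k => z.1 i * conj (z.1 k) / (nrm z.1 : ℂ), by
    have hz : ((nrm z.1 : ℝ) : ℂ) ≠ 0 := by exact_mod_cast nrm_ne z.2
    refine ⟨fun i k => ?_, fun i j k l => ?_, ?_⟩
    · simp [mul_comm]
    · field_simp
    · rw [← Finset.sum_div, ← nrm_cast, div_self hz]⟩

theorem ent_point (z : {z : Fin 3 → ℂ // z ≠ 0}) (i k : Fin 3) :
    ent (point z) i k = z.1 i * conj (z.1 k) / (nrm z.1 : ℂ) := rfl

theorem continuous_nrm : Continuous nrm := by
  unfold nrm
  exact continuous_finsetSum _ fun i _ => Complex.continuous_normSq.comp (continuous_apply i)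

theorem continuous_point : Continuous point := by
  refine continuous_to fun i k => ?_
  simp only [ent_point]
  refine Continuous.div ?_ ?_ ?_
  · exact ((continuous_apply i).comp continuous_subtype_val).mul
      (Complex.continuous_conj.comp ((continuous_apply k).comp continuous_subtype_val))
  · exact Complex.continuous_ofReal.comp (continuous_nrm.comp continuous_subtype_val)
  · intro z
    exact_mod_cast nrm_ne z.2

theorem point_eq_of {z w : {z : Fin 3 → ℂ // z ≠ 0}} {c : ℂ} (hc : c ≠ 0)
    (h : ∀ i, w.1 i = c * z.1 i) : point w = point z := by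
  have h1 : nrm w.1 = Complex.normSq c * nrm z.1 := by
    unfold nrm
    rw [Finset.mul_sum]
    exact Finset.sum_congr rfl fun i _ => by rw [h, Complex.normSq_mul]
  refine ent_ext fun i k => ?_
  rw [ent_point, ent_point, h1, h, h, map_mul]
  push_cast
  rw [← Complex.mul_conj]
  have hc' : conj c ≠ 0 := by simpa using hc
  have hz : ((nrm z.1 : ℝ) : ℂ) ≠ 0 := by exact_mod_cast nrm_ne z.2
  field_simp

/-- Each point of the plane is given by each of its nonzero columns. -/
theorem eq_point {P : Plane} {j : Fin 3} (z : {z : Fin 3 → ℂ // z ≠ 0})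
    (h : ent P j j ≠ 0) (hz : ∀ i, z.1 i = ent P i j / ent P j j) : point z = P := by
  have hn : ((nrm z.1 : ℝ) : ℂ) = (ent P j j)⁻¹ := by
    rw [nrm_cast]
    have : ∀ i, z.1 i * conj (z.1 i) = ent P i i * (ent P j j)⁻¹ := by
      intro i
      rw [hz, map_div₀, ← ent_conj, ← ent_conj]
      have := ent_minor P i j j i
      field_simp
      linear_combination this
    rw [Finset.sum_congr rfl fun i _ => this i, ← Finset.sum_mul, ent_trace, one_mul]
  refine ent_ext fun i k => ?_
  rw [ent_point, hn, hz, hz, map_div₀, ← ent_conj, ← ent_conj]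
  have := ent_minor P i j j k
  field_simp
  linear_combination this

theorem point_surjective : Function.Surjective point := by
  intro P
  obtain ⟨j, hj⟩ := exists_diag_ne P
  refine ⟨⟨fun i => ent P i j / ent P j j, fun h0 => ?_⟩, eq_point _ hj fun i => rfl⟩
  have := congrFun h0 j
  simp [div_self hj] at this

instance : ConnectedSpace Plane := by
  have h : IsConnected ({0}ᶜ : Set (Fin 3 → ℂ)) := by
    refine isConnected_compl_singleton_of_one_lt_rank ?_ 0
    have : Module.finrank ℝ (Fin 3 → ℂ) = 6 := by
      rw [Module.finrank_pi_fintype]; simp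
    rw [← Module.finrank_eq_rank, this]
    norm_num
  have h2 : ConnectedSpace {z : Fin 3 → ℂ // z ≠ 0} := isConnected_iff_connectedSpace.1 h
  exact point_surjective.connectedSpace continuous_point

end Pool.Agent.W730.PN
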